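import Mathlib

namespace Q8.Root

open Polynomial

theorem coprime_prod (S : Multiset ℝ) (Q : ℝ[X]) (h : ∀ μ ∈ S, ¬ IsRoot Q μ) :
    IsCoprime (S.map fun a => X - C a).prod Q := by
  induction S using Multiset.induction_on with
  | empty => simpa using isCoprime_one_left
  | cons a S ih =>
    rw [Multiset.map_cons, Multiset.prod_cons]
    refine IsCoprime.mul_left ?_ (ih fun μ hμ => h μ (Multiset.mem_cons_of_mem hμ))
    rw [(irreducible_X_sub_C a).coprime_iff_not_dvd, dvd_iff_isRoot]
    exact h a (Multiset.mem_cons_self a S)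

variable {R : Type*} [Ring R] [Algebra ℝ R] [Module.Finite ℝ R]

theorem exists_idem (g : R) (hg : IsUnit g) : ∃ e : R, e * e = e ∧ (∀ x, x * g = g * x → x * e = e * x) ∧
    ∀ s : ℝ, 0 ≤ s → IsUnit (g * (1 - 2 * e) + algebraMap ℝ R s) := by
  classical
  set q := minpoly ℝ g with hq
  have hint : IsIntegral ℝ g := Algebra.IsIntegral.isIntegral g
  have hq0 : q ≠ 0 := minpoly.ne_zero hint
  obtain ⟨q₀, hq₀, -, hroots⟩ := exists_prod_multiset_X_sub_C_mul q
  set q₁ : ℝ[X] := ((q.roots.filter (· < 0)).map fun a => X - C a).prod with hq₁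
  set q₂ : ℝ[X] := ((q.roots.filter (fun a => ¬ a < 0)).map fun a => X - C a).prod * q₀ with hq₂
  have hmul : q₁ * q₂ = q := by
    rw [hq₁, hq₂, ← mul_assoc, ← Multiset.prod_add, ← Multiset.map_add, Multiset.filter_add_not]
    exact hq₀
  have hq₀0 : q₀ ≠ 0 := by rintro rfl; rw [mul_zero] at hq₀; exact hq0 hq₀.symm
  have hb : ∀ s : ℝ, s < 0 → ¬ IsRoot q₂ s := by
    intro s hs hr
    rw [hq₂, IsRoot.def, eval_mul, mul_eq_zero] at hr
    rcases hr with hr | hr
    · rw [eval_multiset_prod, Multiset.prod_eq_zero_iff, Multiset.map_map] at hr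
      obtain ⟨a, ha, ha2⟩ := Multiset.mem_map.1 hr
      simp only [Function.comp, eval_sub, eval_X, eval_C] at ha2
      have := (Multiset.mem_filter.1 ha).2
      apply this
      linarith
    · have : s ∈ q₀.roots := (mem_roots hq₀0).2 hr
      rw [hroots] at this
      exact absurd this (Multiset.notMem_zero s)
  have h1 : IsCoprime q₁ q₂ := coprime_prod _ _ fun μ hμ => hb μ (Multiset.mem_filter.1 hμ).2
  obtain ⟨a, b, hab⟩ := h1
  have hEvq : aeval g q = 0 := minpoly.aeval ℝ g
  set e : R := aeval g (b * q₂) with he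
  have he1 : 1 - e = aeval g (a * q₁) := by
    have h0 : aeval g (a * q₁) + aeval g (b * q₂) = 1 := by
      rw [← map_add, hab, map_one]
    rw [he, ← h0]; abel
  have hee : e * (1 - e) = 0 := by
    rw [he1, he, ← map_mul]
    have : b * q₂ * (a * q₁) = (a * b) * q := by rw [← hmul]; ring
    rw [this, map_mul, hEvq, mul_zero]
  refine ⟨e, ?_, ?_, ?_⟩
  · rw [mul_sub, mul_one, sub_eq_zero] at hee
    exact hee.symm
  · intro x hx
    have key : ∀ P : ℝ[X], x * aeval g P = aeval g P * x := by
      intro P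
      induction P using Polynomial.induction_on' with
      | add p q hp hq => rw [map_add, mul_add, add_mul, hp, hq]
      | monomial n r =>
        rw [aeval_monomial]
        have h5 : x * g ^ n = g ^ n * x := (show Commute x g from hx).pow_right n
        rw [← mul_assoc, ← Algebra.commutes, mul_assoc, h5, mul_assoc]
    exact key _
  · intro s hs
    rcases hs.eq_or_lt with rfl | hs
    · rw [map_zero, add_zero]
      refine hg.mul ?_
      have h6 : (1 - 2 * e) * (1 - 2 * e) = 1 := by
        have h7 : e * e = e := by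
          rw [mul_sub, mul_one, sub_eq_zero] at hee
          exact hee.symm
        have h8 : (1 - 2 * e) * (1 - 2 * e) = 1 - 4 * e + 4 * (e * e) := by noncomm_ring
        rw [h8, h7]; simp
      exact ⟨⟨_, _, h6, h6⟩, rfl⟩
    · obtain ⟨u, v, huv⟩ : IsCoprime q₁ (X - C s) := by
        refine coprime_prod _ _ fun μ hμ => ?_
        have := (Multiset.mem_filter.1 hμ).2
        rw [IsRoot.def, eval_sub, eval_X, eval_C]
        intro h9; linarith
      obtain ⟨w, z, hwz⟩ : IsCoprime q₂ (X - C (-s)) := by
        refine IsCoprime.symm ?_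
        rw [(irreducible_X_sub_C (-s)).coprime_iff_not_dvd, dvd_iff_isRoot]
        exact hb _ (by linarith)
      rw [C_neg] at hwz
      have hT : g * (1 - 2 * e) + algebraMap ℝ R s =
          aeval g (X * (a * q₁ - b * q₂) + C s) := by
        rw [map_add, map_mul, aeval_X, aeval_C, map_sub, ← he1, ← he, two_mul]
        congr 2
        abel
      have hid : (X * (a * q₁ - b * q₂) + C s) * (-v * (b * q₂) + z * (a * q₁)) =
          1 + q * (-2 * a * b - (a * q₁) * a * w - (b * q₂) * b * u -
            a * b * ((X + C s) * v + (X - C s) * z)) := by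
        rw [← hmul]
        linear_combination (-(C s) * (-v * (b * q₂) + z * (a * q₁)) + (a * q₁ + b * q₂ + 1)) * hab
          + (a * q₁) ^ 2 * hwz + (b * q₂) ^ 2 * huv
      have hid2 : aeval g (X * (a * q₁ - b * q₂) + C s) * aeval g (-v * (b * q₂) + z * (a * q₁)) = 1
        := by
        rw [← map_mul, hid, map_add, map_mul, hEvq, zero_mul, add_zero, map_one]
      rw [hT]
      refine ⟨⟨_, _, hid2, ?_⟩, rfl⟩
      rw [← map_mul, mul_comm, map_mul, hid2]

end Q8.Root
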