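import Mathlib

namespace Q8.Root

open Module

variable {D V : Type*} [DivisionRing D] [AddCommGroup V] [Module D V]

/-- Jordan data of `X`: chains `c i, X (c i), ..., X ^ (l i - 1) (c i)` which together span the
space, whose total length is the dimension. -/
structure JD (X : End D V) {ι : Type*} [Fintype ι] (l : ι → ℕ) (c : ι → V) : Prop where
  zero : ∀ i, (X ^ l i) (c i) = 0
  span : ⊤ ≤ Submodule.span D (Set.range fun q : ι × ℕ => (X ^ q.2) (c q.1))
  card : ∑ i, l i = finrank D V

namespace JD
variable {X : End D V} {ι : Type*} [Fintype ι] {l : ι → ℕ} {c : ι → V}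

theorem zero_of_le (h : JD X l c) {i : ι} {j : ℕ} (hj : l i ≤ j) : (X ^ j) (c i) = 0 := by
  obtain ⟨k, rfl⟩ := Nat.exists_eq_add_of_le' hj
  rw [pow_add, End.mul_apply, h.zero, map_zero]

theorem ext (h : JD X l c) {W : Type*} [AddCommGroup W] [Module D W] {S T : V →ₗ[D] W}
    (hST : ∀ i j, S ((X ^ j) (c i)) = T ((X ^ j) (c i))) : S = T := by
  refine LinearMap.ext_on_range (v := fun q : ι × ℕ => (X ^ q.2) (c q.1)) (top_le_iff.1 h.span) ?_
  rintro ⟨i, j⟩
  exact hST i j

/-- the basis attached to Jordan data -/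
noncomputable def basis [Module.Finite D V] (h : JD X l c) : Basis (Σ i, Fin (l i)) D V :=
  basisOfTopLeSpanOfCardEqFinrank (fun q : Σ i, Fin (l i) => (X ^ (q.2 : ℕ)) (c q.1))
    (by
      refine h.span.trans (Submodule.span_le.2 ?_)
      rintro _ ⟨⟨i, j⟩, rfl⟩
      by_cases hj : j < l i
      · exact Submodule.subset_span ⟨⟨i, ⟨j, hj⟩⟩, rfl⟩
      · change (X ^ j) (c i) ∈ _
        rw [h.zero_of_le (not_lt.1 hj)]
        exact zero_mem _)
    (by simp [h.card])

theorem basis_apply [Module.Finite D V] (h : JD X l c) (i : ι) (j : Fin (l i)) :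
    h.basis ⟨i, j⟩ = (X ^ (j : ℕ)) (c i) := by
  simp [basis]

theorem lift [Module.Finite D V] (h : JD X l c) {W : Type*} [AddCommGroup W] [Module D W]
    (f : ι → ℕ → W) (hf : ∀ i j, l i ≤ j → f i j = 0) :
    ∃ T : V →ₗ[D] W, ∀ i j, T ((X ^ j) (c i)) = f i j := by
  refine ⟨h.basis.constr ℕ (fun q => f q.1 q.2), fun i j => ?_⟩
  by_cases hj : j < l i
  · have := h.basis.constr_basis ℕ (fun q => f q.1 q.2) ⟨i, ⟨j, hj⟩⟩
    rw [basis_apply] at this
    exact this
  · rw [h.zero_of_le (not_lt.1 hj), map_zero, hf i j (not_lt.1 hj)]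

/-- conjugation -/
theorem conj (h : JD X l c) {g g' : End D V} (h1 : g * g' = 1) (h2 : g' * g = 1) :
    JD (g * X * g') l (fun i => g (c i)) := by
  have hp : ∀ k, (g * X * g') ^ k = g * X ^ k * g' := by
    intro k
    induction k with
    | zero => simp [h1]
    | succ k ih =>
      rw [pow_succ, ih, pow_succ]
      calc g * X ^ k * g' * (g * X * g') = g * X ^ k * (g' * g) * X * g' := by
            simp only [mul_assoc]
        _ = g * (X ^ k * X) * g' := by rw [h2]; simp only [mul_assoc, one_mul]
  have hg : ∀ v, g' (g v) = v := fun v => by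
    rw [← End.mul_apply, h2]; rfl
  have hg' : ∀ v, g (g' v) = v := fun v => by
    rw [← End.mul_apply, h1]; rfl
  refine ⟨fun i => ?_, ?_, h.card⟩
  · rw [hp]
    simp only [End.mul_apply, hg, h.zero, map_zero]
  · intro v _
    have hv : g' v ∈ Submodule.span D (Set.range fun q : ι × ℕ => (X ^ q.2) (c q.1)) :=
      h.span trivial
    have := Submodule.mem_map_of_mem (f := g) hv
    rw [Submodule.map_span, hg', ← Set.range_comp] at this
    convert this using 3
    funext q
    simp only [Function.comp, hp, End.mul_apply, hg]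

end JD

/-- Existence of Jordan data for nilpotent endomorphisms. -/
theorem exists_JD_aux.{u} {D : Type*} [DivisionRing D] (N : ℕ) :
    ∀ (V : Type u) [AddCommGroup V] [Module D V] [Module.Finite D V] (X : End D V),
      finrank D V = N → IsNilpotent X →
      ∃ (ι : Type) (_ : Fintype ι) (l : ι → ℕ) (c : ι → V), JD X l c := by
  induction N using Nat.strong_induction_on with
  | _ N ih =>
  intro V _ _ _ X hN hX
  rcases subsingleton_or_nontrivial V with hV | hV
  · exact ⟨Empty, inferInstance, Empty.elim, Empty.elim, fun i => i.elim,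
      fun v _ => by rw [Subsingleton.elim v 0]; exact zero_mem _, by
        simp [finrank_zero_of_subsingleton]⟩
  · obtain ⟨m, hm0, hm1⟩ : ∃ m, X ^ m ≠ 0 ∧ X ^ (m + 1) = 0 := by
      have hne : X ^ 0 ≠ 0 := by simp
      obtain ⟨k, hk⟩ := hX
      have hex : ∃ k, X ^ k = 0 := ⟨k, hk⟩
      classical
      have h1 : Nat.find hex ≠ 0 := by
        intro h0
        have := Nat.find_spec hex
        rw [h0] at this
        exact hne this
      obtain ⟨r, hr⟩ := Nat.exists_eq_succ_of_ne_zero h1
      refine ⟨r, Nat.find_min hex (by omega), ?_⟩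
      have := Nat.find_spec hex
      rw [hr] at this
      exact this
    have hXge : ∀ j, m + 1 ≤ j → X ^ j = 0 := by
      intro j hj
      obtain ⟨k, rfl⟩ := Nat.exists_eq_add_of_le hj
      rw [pow_add, hm1, zero_mul]
    obtain ⟨c, hc⟩ : ∃ c, (X ^ m) c ≠ 0 := by
      by_contra hcon
      push Not at hcon
      exact hm0 (LinearMap.ext hcon)
    obtain ⟨φ, hφ⟩ : ∃ φ : V →ₗ[D] D, φ ((X ^ m) c) = 1 := by
      obtain ⟨g, hg⟩ := LinearMap.exists_leftInverse_of_injective
        (LinearMap.toSpanSingleton D V ((X ^ m) c)) (LinearMap.ker_toSpanSingleton D hc)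
      refine ⟨g, ?_⟩
      have := LinearMap.congr_fun hg 1
      simpa using this
    let Φ : V →ₗ[D] (Fin (m + 1) → D) := LinearMap.pi fun j => φ ∘ₗ (X ^ (j : ℕ))
    let Ψ : (Fin (m + 1) → D) →ₗ[D] V :=
      { toFun := fun a => ∑ j, a j • (X ^ (j : ℕ)) c
        map_add' := fun a b => by simp [add_smul, Finset.sum_add_distrib]
        map_smul' := fun r a => by simp [Finset.smul_sum, smul_smul] }
    have hinj : Function.Injective (Φ ∘ₗ Ψ) := by
      rw [injective_iff_map_eq_zero]
      intro a ha
      have key : ∀ (k : ℕ) (hk : k < m + 1), a ⟨k, hk⟩ = 0 := by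
        intro k
        induction k using Nat.strong_induction_on with
        | _ k ihk =>
          intro hk
          have h1 := congrFun ha ⟨m - k, by omega⟩
          change φ ((X ^ (m - k)) (∑ j, a j • (X ^ (j : ℕ)) c)) = 0 at h1
          rw [map_sum, map_sum, Finset.sum_eq_single (⟨k, hk⟩ : Fin (m + 1))] at h1
          · rw [map_smul, map_smul, ← End.mul_apply, ← pow_add] at h1
            rw [show m - k + k = m by omega, hφ] at h1
            simpa using h1
          · intro j _ hj
            rcases lt_or_gt_of_ne (fun h : (j : ℕ) = k => hj (Fin.ext h)) with hlt | hgt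
            · rw [ihk j hlt j.2]; simp
            · rw [map_smul, map_smul, ← End.mul_apply, ← pow_add, hXge _ (by omega)]; simp
          · simp
      funext j
      exact key j j.2
    have hsurj : Function.Surjective (Φ ∘ₗ Ψ) := LinearMap.injective_iff_surjective.1 hinj
    have hΦsurj : Function.Surjective Φ := fun y => by
      obtain ⟨a, ha⟩ := hsurj y
      exact ⟨Ψ a, ha⟩
    set W : Submodule D V := LinearMap.ker Φ with hW
    have hWmem : ∀ w, w ∈ W ↔ ∀ j, φ ((X ^ j) w) = 0 := by
      intro w
      constructor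
      · intro hw j
        by_cases hj : j < m + 1
        · have := congrFun (LinearMap.mem_ker.1 hw) ⟨j, hj⟩
          exact this
        · rw [hXge j (by omega)]; simp
      · intro hw
        rw [hW, LinearMap.mem_ker]
        funext j
        exact hw j
    have hinv : ∀ w ∈ W, X w ∈ W := by
      intro w hw
      rw [hWmem] at hw ⊢
      intro j
      rw [← End.mul_apply, ← pow_succ]
      exact hw (j + 1)
    have hdim : finrank D W + (m + 1) = finrank D V := by
      have h1 := LinearMap.finrank_range_add_finrank_ker Φ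
      rw [LinearMap.range_eq_top.2 hΦsurj, finrank_top, finrank_fin_fun, ← hW] at h1
      omega
    let X' : End D W := X.restrict hinv
    have hX'pow : ∀ (k : ℕ) (w : W), (((X' ^ k) w : W) : V) = (X ^ k) (w : V) := by
      intro k
      induction k with
      | zero => intro w; rfl
      | succ k ih =>
        intro w
        rw [pow_succ, End.mul_apply, ih, pow_succ, End.mul_apply]
        rfl
    have hX'nil : IsNilpotent X' := by
      refine ⟨m + 1, LinearMap.ext fun w => Subtype.ext ?_⟩
      rw [hX'pow, hm1]; rfl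
    obtain ⟨ι, _, l, c', hJ⟩ := ih (finrank D W) (by omega) W X' rfl hX'nil
    refine ⟨Option ι, inferInstance, fun o => o.elim (m + 1) l, fun o => o.elim c fun i => (c' i : V),
      ?_, ?_, ?_⟩
    · rintro (_ | i)
      · change (X ^ (m + 1)) c = 0
        rw [hm1]; rfl
      · change (X ^ l i) (c' i : V) = 0
        rw [← hX'pow, hJ.zero]; rfl
    · intro v _
      obtain ⟨a, ha⟩ := hsurj (Φ v)
      have hv : v - Ψ a ∈ W := by
        rw [hW, LinearMap.mem_ker, map_sub, ← ha]; simp
      have h1 : Ψ a ∈ Submodule.span D (Set.range fun q : Option ι × ℕ =>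
          (X ^ q.2) (q.1.elim c fun i => (c' i : V))) := by
        change (∑ j, a j • (X ^ (j : ℕ)) c) ∈ _
        refine Submodule.sum_mem _ fun j _ => Submodule.smul_mem _ _ (Submodule.subset_span ?_)
        exact ⟨(none, (j : ℕ)), rfl⟩
      have h2 : (v - Ψ a) ∈ Submodule.span D (Set.range fun q : Option ι × ℕ =>
          (X ^ q.2) (q.1.elim c fun i => (c' i : V))) := by
        have h3 : (⟨v - Ψ a, hv⟩ : W) ∈ Submodule.span D
            (Set.range fun q : ι × ℕ => (X' ^ q.2) (c' q.1)) := hJ.span trivial
        have h4 := Submodule.mem_map_of_mem (f := W.subtype) h3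
        rw [Submodule.map_span, ← Set.range_comp] at h4
        refine Submodule.span_mono ?_ h4
        rintro _ ⟨⟨i, j⟩, rfl⟩
        exact ⟨(some i, j), (hX'pow j (c' i)).symm⟩
      have : v = Ψ a + (v - Ψ a) := by abel
      rw [this]
      exact Submodule.add_mem _ h1 h2
    · rw [Fintype.sum_option]
      change m + 1 + ∑ i, l i = _
      rw [hJ.card]; omega

theorem exists_JD {D : Type*} [DivisionRing D] {V : Type*} [AddCommGroup V] [Module D V]
    [Module.Finite D V] (X : End D V) (hX : IsNilpotent X) :
    ∃ (ι : Type) (_ : Fintype ι) (l : ι → ℕ) (c : ι → V), JD X l c :=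
  exists_JD_aux _ V X rfl hX

end Q8.Root
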