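import Pool.Agent.Q8.Root.Uniq

namespace Q8.Root

open Module Quaternion

/-- A complex structure on the image of an idempotent commuting with a nilpotent map. -/
theorem exists_J {D V : Type*} [DivisionRing D] [AddCommGroup V] [Module D V] [Module.Finite D V]
    {I : D} (hI : I * I = -1) {A e : End D V} (hA : IsNilpotent A) (hee : e * e = e)
    (heA : e * A = A * e) :
    ∃ J : End D V, J * J = -e ∧ e * J = J ∧ J * e = J ∧ J * A = A * J := by
  set W : Submodule D V := LinearMap.range e with hW
  have hev : ∀ w ∈ W, e w = w := by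
    rintro _ ⟨v, rfl⟩
    rw [← End.mul_apply, hee]
  have hinv : ∀ w ∈ W, A w ∈ W := by
    intro w hw
    refine ⟨A w, ?_⟩
    rw [← End.mul_apply, heA, End.mul_apply, hev w hw]
  let A' : End D W := A.restrict hinv
  have hA'pow : ∀ (k : ℕ) (w : W), (((A' ^ k) w : W) : V) = (A ^ k) (w : V) := by
    intro k
    induction k with
    | zero => intro w; rfl
    | succ k ih =>
      intro w
      rw [pow_succ, End.mul_apply, ih, pow_succ, End.mul_apply]
      rfl
  have hA'nil : IsNilpotent A' := by
    obtain ⟨k, hk⟩ := hA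
    refine ⟨k, LinearMap.ext fun w => Subtype.ext ?_⟩
    rw [hA'pow, hk]; rfl
  obtain ⟨ι, _, l, c, hJ⟩ := exists_JD A' hA'nil
  obtain ⟨J', hJ'⟩ := hJ.lift (fun i j => I • (A' ^ j) (c i))
    (fun i j hj => by rw [hJ.zero_of_le hj, smul_zero])
  have hJJ : ∀ w, J' (J' w) = -w := by
    have : J' * J' = -1 := by
      apply hJ.ext
      intro i j
      rw [End.mul_apply, hJ', map_smul, hJ', smul_smul, hI]
      simp
    intro w
    have := LinearMap.congr_fun this w
    exact this
  have hJA : ∀ w, J' (A' w) = A' (J' w) := by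
    have : J' * A' = A' * J' := by
      apply hJ.ext
      intro i j
      have e1 : (J' * A') ((A' ^ j) (c i)) = J' ((A' ^ (j + 1)) (c i)) := by
        rw [pow_succ']; rfl
      rw [e1, hJ', End.mul_apply, hJ', map_smul, pow_succ']
      rfl
    exact fun w => LinearMap.congr_fun this w
  let e' : V →ₗ[D] W := e.codRestrict W (fun v => ⟨v, rfl⟩)
  have he'w : ∀ w : W, e' (w : V) = w := fun w => Subtype.ext (hev w w.2)
  refine ⟨W.subtype ∘ₗ J' ∘ₗ e', ?_, ?_, ?_, ?_⟩
  · refine LinearMap.ext fun v => ?_
    change (J' (e' (J' (e' v) : W)) : V) = -(e v)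
    rw [he'w, hJJ]; rfl
  · refine LinearMap.ext fun v => ?_
    change e (J' (e' v) : W) = (J' (e' v) : W)
    exact hev _ (J' (e' v)).2
  · refine LinearMap.ext fun v => ?_
    change ((J' (e' (e v)) : W) : V) = (J' (e' v) : W)
    have : e' (e v) = e' v := Subtype.ext (by
      change e (e v) = e v
      rw [← End.mul_apply, hee])
    rw [this]
  · refine LinearMap.ext fun v => ?_
    change ((J' (e' (A v)) : W) : V) = A (J' (e' v) : W)
    have : e' (A v) = A' (e' v) := Subtype.ext (by
      change e (A v) = A (e v)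
      rw [← End.mul_apply, heA]; rfl)
    rw [this, hJA]
    rfl

variable {n : ℕ}

/-- matrices as endomorphisms of the right vector space `ℍⁿ` -/
noncomputable def toEnd (n : ℕ) : Matrix (Fin n) (Fin n) ℍ[ℝ] ≃+* End (ℍ[ℝ])ᵐᵒᵖ (Fin n → ℍ[ℝ]) where
  toFun M :=
    { toFun := fun v => M.mulVec v
      map_add' := Matrix.mulVec_add M
      map_smul' := fun r v => by
        funext i
        simp only [Matrix.mulVec, dotProduct, Pi.smul_apply, RingHom.id_apply,
          MulOpposite.smul_eq_mul_unop, Finset.sum_mul, mul_assoc] }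
  invFun T := Matrix.of fun i j => T (Pi.single j 1) i
  left_inv M := by
    ext1 i j
    simp
  right_inv T := by
    refine LinearMap.ext fun v => ?_
    change (Matrix.of fun i j => T (Pi.single j 1) i).mulVec v = T v
    have hv : v = ∑ j, MulOpposite.op (v j) • (Pi.single j 1 : Fin n → ℍ[ℝ]) := by
      funext i
      rw [Finset.sum_apply, Finset.sum_eq_single i]
      · simp
      · intro b _ hb
        simp [Pi.single_apply, hb.symm]
      · simp
    conv_rhs => rw [hv, map_sum]
    funext i
    rw [Finset.sum_apply]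
    simp only [Matrix.mulVec, dotProduct, Matrix.of_apply, map_smul, Pi.smul_apply,
      MulOpposite.smul_eq_mul_unop, MulOpposite.unop_op]
  map_mul' M N := by
    refine LinearMap.ext fun v => ?_
    exact (Matrix.mulVec_mulVec v M N).symm
  map_add' M N := by
    refine LinearMap.ext fun v => ?_
    exact Matrix.add_mulVec M N v

theorem toEnd_smul (t : ℝ) (M : Matrix (Fin n) (Fin n) ℍ[ℝ]) :
    toEnd n (t • M) = t • toEnd n M := by
  refine LinearMap.ext fun v => ?_
  exact Matrix.smul_mulVec t M v

theorem toEnd_symm_smul (t : ℝ) (T : End (ℍ[ℝ])ᵐᵒᵖ (Fin n → ℍ[ℝ])) :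
    (toEnd n).symm (t • T) = t • (toEnd n).symm T := by
  apply (toEnd n).injective
  rw [toEnd_smul]; simp

end Q8.Root
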