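import Pool.Agent.Q8.Root.JD

namespace Q8.Root

open Module

theorem conj_pow {R : Type*} [Ring R] {g g' : R} (h2 : g' * g = 1) (x : R) (k : ℕ)
    (h1 : g * g' = 1) : (g * x * g') ^ k = g * x ^ k * g' := by
  induction k with
  | zero => simp [h1]
  | succ k ih =>
    rw [pow_succ, ih, pow_succ]
    calc g * x ^ k * g' * (g * x * g') = g * x ^ k * (g' * g) * x * g' := by
          simp only [mul_assoc]
      _ = g * (x ^ k * x) * g' := by rw [h2]; simp only [mul_assoc, one_mul]

variable {D V : Type*} [DivisionRing D] [AddCommGroup V] [Module D V] [Module.Finite D V]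
  [Module ℝ V] [SMulCommClass D ℝ V] [LinearMap.CompatibleSMul V V ℝ D]

/-- The elementary move. -/
theorem move {X : End D V} {ι : Type*} [Fintype ι] [DecidableEq ι] {l : ι → ℕ} {c : ι → V}
    (h : JD X l c) {p : ℕ} (hp : 0 < p) {i₀ i₁ : ι} (hne : i₀ ≠ i₁) {k : ℕ}
    (h1 : p * k < l i₁) (h2 : l i₁ ≤ l i₀) (h3 : l i₀ < p * k + p) :
    ∃ E F : End D V, F * F = 0 ∧
      (∀ t : ℝ, ((1 + t • F) * (X + t • E) * (1 - t • F)) ^ p = X ^ p) ∧
      ∃ c' : ι → V, JD ((1 + F) * (X + E) * (1 - F))
        (fun i => if i = i₀ then l i₀ + 1 else if i = i₁ then l i₁ - 1 else l i) c' := by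
  obtain ⟨E, hE⟩ := h.lift (fun i j => if i = i₀ ∧ j + 1 = l i₀ then (X ^ (l i₁ - 1)) (c i₁) else 0)
    (by
      intro i j hj
      rw [if_neg]
      rintro ⟨rfl, h4⟩
      omega)
  obtain ⟨F, hF⟩ := h.lift (fun i j => if i = i₀ ∧ j + p ≤ l i₀ ∧ p ∣ (l i₀ - j) then
      (X ^ (l i₁ - 1 - (l i₀ - j))) (c i₁) else 0)
    (by
      intro i j hj
      rw [if_neg]
      rintro ⟨rfl, h4, -⟩
      omega)
  have hE1 : ∀ i j, i ≠ i₀ → E ((X ^ j) (c i)) = 0 := fun i j hi => by
    rw [hE, if_neg (fun h => hi h.1)]
  have hF1 : ∀ i j, i ≠ i₀ → F ((X ^ j) (c i)) = 0 := fun i j hi => by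
    rw [hF, if_neg (fun h => hi h.1)]
  have hE0 : ∀ j, E ((X ^ j) (c i₀)) = if j + 1 = l i₀ then (X ^ (l i₁ - 1)) (c i₁) else 0 :=
    fun j => by rw [hE]; simp
  have hF0 : ∀ j, F ((X ^ j) (c i₀)) = if j + p ≤ l i₀ ∧ p ∣ (l i₀ - j) then
      (X ^ (l i₁ - 1 - (l i₀ - j))) (c i₁) else 0 := fun j => by rw [hF]; simp
  have hFF : F * F = 0 := by
    apply h.ext
    intro i j
    rw [End.mul_apply, LinearMap.zero_apply]
    by_cases hi : i = i₀
    · subst hi
      rw [hF0]
      split_ifs
      · exact hF1 _ _ hne.symm
      · exact map_zero _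
    · rw [hF1 i j hi, map_zero]
  have hA : ∀ (t : ℝ) i (_ : i ≠ i₀) (k j : ℕ), ((X + t • E) ^ k) ((X ^ j) (c i)) =
      (X ^ (j + k)) (c i) := by
    intro t i hi k
    induction k with
    | zero => intro j; rfl
    | succ k ih =>
      intro j
      rw [pow_succ', End.mul_apply, ih, LinearMap.add_apply, LinearMap.smul_apply, hE1 _ _ hi,
        smul_zero, add_zero, ← End.mul_apply, ← pow_succ']
      rfl
  have hXb : X ((X ^ (l i₁ - 1)) (c i₁)) = 0 := by
    rw [← End.mul_apply, ← pow_succ', show l i₁ - 1 + 1 = l i₁ by omega, h.zero]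
  have hB : ∀ (t : ℝ) (k j : ℕ), j < l i₀ → ((X + t • E) ^ k) ((X ^ j) (c i₀)) =
      (X ^ (j + k)) (c i₀) + if j + k = l i₀ then t • (X ^ (l i₁ - 1)) (c i₁) else 0 := by
    intro t k
    induction k with
    | zero =>
      intro j hj
      rw [if_neg (by omega), add_zero]; rfl
    | succ k ih =>
      intro j hj
      rw [pow_succ', End.mul_apply, ih j hj, map_add, LinearMap.add_apply, LinearMap.smul_apply,
        hE0, ← End.mul_apply X, ← pow_succ', add_assoc]
      have : (X + t • E) (if j + k = l i₀ then t • (X ^ (l i₁ - 1)) (c i₁) else 0) = 0 := by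
        split_ifs
        · rw [LinearMap.add_apply, LinearMap.smul_apply, LinearMap.map_smul_of_tower, LinearMap.map_smul_of_tower, hXb,
            hE1 _ _ hne.symm]
          simp
        · exact map_zero _
      rw [this, add_zero]
      congr 1
      rw [← add_assoc j k 1]
      split_ifs <;> simp
  have hkey : ∀ t : ℝ, (1 + t • F) * (X + t • E) ^ p = X ^ p * (1 + t • F) := by
    intro t
    apply h.ext
    intro i j
    simp only [End.mul_apply, LinearMap.add_apply, LinearMap.smul_apply, End.one_apply, map_add]
    by_cases hi : i = i₀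
    · subst hi
      by_cases hj : j < l i
      · rw [hB t p j hj]
        by_cases hd : p ∣ l i - j
        · obtain ⟨m, hm⟩ := hd
          have hm0 : m ≠ 0 := by rintro rfl; omega
          have hmk : m ≤ k := by
            by_contra hcon
            have : p * (k + 1) ≤ p * m := Nat.mul_le_mul_left p (by omega)
            have e1 : p * (k + 1) = p * k + p := by ring
            omega
          have hpm : p * m ≤ p * k := Nat.mul_le_mul_left p hmk
          have hp1 : p ≤ p * m := Nat.le_mul_of_pos_right p (by omega)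
          have hFj : F ((X ^ j) (c i)) = (X ^ (l i₁ - 1 - (l i - j))) (c i₁) := by
            rw [hF0, if_pos ⟨by omega, ⟨m, hm⟩⟩]
          rw [hFj]
          by_cases hm1 : m = 1
          · subst hm1
            rw [if_pos (by omega)]
            rw [h.zero_of_le (show l i ≤ j + p by omega)]
            rw [map_add, map_zero, LinearMap.map_smul_of_tower, hF1 _ _ hne.symm]
            rw [← End.mul_apply (X ^ p), ← pow_add, h.zero_of_le (show l i ≤ p + j by omega)]
            rw [LinearMap.map_smul_of_tower, ← End.mul_apply (X ^ p), ← pow_add,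
              show p + (l i₁ - 1 - (l i - j)) = l i₁ - 1 by omega]
            simp
          · have hm2 : p * 2 ≤ p * m := Nat.mul_le_mul_left p (by omega)
            rw [if_neg (by omega), add_zero, hF0, if_pos]
            · rw [← End.mul_apply (X ^ p), ← pow_add, LinearMap.map_smul_of_tower,
                ← End.mul_apply (X ^ p), ← pow_add, add_comm j p,
                show p + (l i₁ - 1 - (l i - j)) = l i₁ - 1 - (l i - (p + j)) by omega]
            · refine ⟨by omega, ⟨m - 1, ?_⟩⟩
              rw [Nat.mul_sub, mul_one]; omega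
        · have hFj : F ((X ^ j) (c i)) = 0 := by
            rw [hF0, if_neg (fun h => hd h.2)]
          have hne2 : j + p ≠ l i := by
            intro h5
            apply hd
            exact ⟨1, by omega⟩
          have hFjp : F ((X ^ (j + p)) (c i)) = 0 := by
            rw [hF0, if_neg]
            rintro ⟨h5, m, h6⟩
            apply hd
            exact ⟨m + 1, by rw [mul_add, mul_one]; omega⟩
          rw [if_neg hne2, add_zero, hFj, hFjp, ← End.mul_apply (X ^ p), ← pow_add, add_comm j p]
          simp
      · rw [h.zero_of_le (not_lt.1 hj)]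
        simp
    · rw [hA t i hi, hF1 _ _ hi, hF1 _ _ hi, ← End.mul_apply (X ^ p), ← pow_add, add_comm j p]
      simp
  have hFFv : ∀ v, F (F v) = 0 := fun v => by
    have := LinearMap.congr_fun hFF v
    exact this
  have hg1 : ∀ t : ℝ, (1 - t • F) * (1 + t • F) = 1 := by
    intro t
    refine LinearMap.ext fun v => ?_
    simp only [End.mul_apply, LinearMap.add_apply, LinearMap.sub_apply, LinearMap.smul_apply,
      End.one_apply, map_add, LinearMap.map_smul_of_tower, hFFv, smul_zero, add_zero]
    abel
  have hg2 : ∀ t : ℝ, (1 + t • F) * (1 - t • F) = 1 := by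
    intro t
    refine LinearMap.ext fun v => ?_
    simp only [End.mul_apply, LinearMap.add_apply, LinearMap.sub_apply, LinearMap.smul_apply,
      End.one_apply, map_sub, LinearMap.map_smul_of_tower, hFFv, smul_zero, sub_zero]
    abel
  refine ⟨E, F, hFF, fun t => ?_, ?_⟩
  · rw [conj_pow (hg1 t) _ _ (hg2 t), hkey t, mul_assoc, hg2 t, mul_one]
  · have hA1 : ∀ i (_ : i ≠ i₀) (k j : ℕ), ((X + E) ^ k) ((X ^ j) (c i)) = (X ^ (j + k)) (c i) := by
      have := hA 1; simpa only [one_smul] using this
    have hB1 : ∀ (k j : ℕ), j < l i₀ → ((X + E) ^ k) ((X ^ j) (c i₀)) =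
      (X ^ (j + k)) (c i₀) + if j + k = l i₀ then (X ^ (l i₁ - 1)) (c i₁) else 0 := by
      have := hB 1; simpa only [one_smul] using this
    have hJ : JD (X + E) (fun i => if i = i₀ then l i₀ + 1 else if i = i₁ then l i₁ - 1 else l i)
        (fun i => if i = i₁ then c i₁ - ((X + E) ^ (l i₀ - l i₁ + 1)) (c i₀) else c i) := by
      refine ⟨fun i => ?_, ?_, ?_⟩
      · by_cases hi : i = i₀
        · subst hi
          simp only [if_true, if_neg hne]
          have := hB1 (l i) 0 (by omega)
          rw [pow_zero, End.one_apply, zero_add, if_pos rfl, h.zero, zero_add] at this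
          rw [pow_succ', End.mul_apply, this, LinearMap.add_apply, hXb, hE1 _ _ hne.symm, add_zero]
        · by_cases hi1 : i = i₁
          · subst hi1
            simp only [if_true, if_neg hi]
            have e1 := hA1 i hi (l i - 1) 0
            have e2 := hB1 (l i₀) 0 (by omega)
            rw [pow_zero, End.one_apply, zero_add] at e1
            rw [pow_zero, End.one_apply, zero_add, if_pos rfl, h.zero, zero_add] at e2
            rw [map_sub, ← End.mul_apply, ← pow_add,
              show l i - 1 + (l i₀ - l i + 1) = l i₀ by omega, e1, e2, sub_self]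
          · simp only [if_neg hi, if_neg hi1]
            have e1 := hA1 i hi (l i) 0
            rw [pow_zero, End.one_apply, zero_add] at e1
            rw [e1, h.zero]
      · refine h.span.trans (Submodule.span_le.2 ?_)
        rintro _ ⟨⟨i, j⟩, rfl⟩
        change (X ^ j) (c i) ∈ _
        have hmem : ∀ j, ((X + E) ^ j) (c i₀) ∈ Submodule.span D (Set.range fun q : ι × ℕ =>
            ((X + E) ^ q.2) ((fun i => if i = i₁ then c i₁ - ((X + E) ^ (l i₀ - l i₁ + 1)) (c i₀)
              else c i) q.1)) := by
          intro j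
          refine Submodule.subset_span ⟨(i₀, j), ?_⟩
          simp only [if_neg hne]
        by_cases hi : i = i₀
        · subst hi
          by_cases hj : j < l i
          · have e1 := hB1 j 0 (by omega)
            rw [pow_zero, End.one_apply, zero_add, if_neg (by omega), add_zero] at e1
            rw [← e1]
            exact hmem j
          · rw [h.zero_of_le (not_lt.1 hj)]
            exact zero_mem _
        · have e1 := hA1 i hi j 0
          rw [pow_zero, End.one_apply, zero_add] at e1
          rw [← e1]
          by_cases hi1 : i = i₁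
          · subst hi1
            have e2 : ((X + E) ^ j) (c i) =
                ((X + E) ^ j) (c i - ((X + E) ^ (l i₀ - l i + 1)) (c i₀)) +
                  ((X + E) ^ (j + (l i₀ - l i + 1))) (c i₀) := by
              rw [map_sub, pow_add (X + E) j, End.mul_apply]; abel
            rw [e2]
            refine Submodule.add_mem _ (Submodule.subset_span ⟨(i, j), ?_⟩) (hmem _)
            simp only [if_true]
          · refine Submodule.subset_span ⟨(i, j), ?_⟩
            simp only [if_neg hi1]
      · rw [← h.card, ← Finset.add_sum_erase _ _ (Finset.mem_univ i₀),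
          ← Finset.add_sum_erase (Finset.univ.erase i₀) _
            (Finset.mem_erase.2 ⟨hne.symm, Finset.mem_univ i₁⟩),
          ← Finset.add_sum_erase _ l (Finset.mem_univ i₀),
          ← Finset.add_sum_erase (Finset.univ.erase i₀) l
            (Finset.mem_erase.2 ⟨hne.symm, Finset.mem_univ i₁⟩)]
        have hs : ∑ i ∈ (Finset.univ.erase i₀).erase i₁,
            (if i = i₀ then l i₀ + 1 else if i = i₁ then l i₁ - 1 else l i) =
            ∑ i ∈ (Finset.univ.erase i₀).erase i₁, l i := by
          refine Finset.sum_congr rfl fun i hi => ?_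
          rw [Finset.mem_erase, Finset.mem_erase] at hi
          rw [if_neg hi.2.1, if_neg hi.1]
        rw [hs, if_pos rfl, if_neg hne.symm, if_pos rfl]
        omega
    have hg1' := hg1 1
    have hg2' := hg2 1
    rw [one_smul] at hg1' hg2'
    exact ⟨_, hJ.conj hg2' hg1'⟩

end Q8.Root
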