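import Pool.Agent.Q8.Root.Mat
import Pool.Agent.Q8.Root.Idem

namespace Q8.Root

open Module Quaternion

instance finiteOp : Module.Finite (ℍ[ℝ])ᵐᵒᵖ ℍ[ℝ] := by
  refine ⟨⟨{1}, ?_⟩⟩
  rw [eq_top_iff]
  intro q _
  rw [Finset.coe_singleton, Submodule.mem_span_singleton]
  exact ⟨MulOpposite.op q, by simp⟩

variable {n : ℕ}

theorem continuousAt_inverse (x : Matrix (Fin n) (Fin n) ℍ[ℝ]) (hx : IsUnit x) :
    ContinuousAt Ring.inverse x := by
  let _ : NormedRing (Matrix (Fin n) (Fin n) ℍ[ℝ]) := Matrix.linftyOpNormedRing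
  let _ : NormedAlgebra ℝ (Matrix (Fin n) (Fin n) ℍ[ℝ]) := Matrix.linftyOpNormedAlgebra
  have : CompleteSpace (Matrix (Fin n) (Fin n) ℍ[ℝ]) := FiniteDimensional.complete ℝ _
  obtain ⟨u, rfl⟩ := hx
  exact NormedRing.inverse_continuousAt u

/-- Units of the centraliser of a nilpotent matrix are joined to the identity. -/
theorem exists_path {A g : Matrix (Fin n) (Fin n) ℍ[ℝ]} (hA : IsNilpotent A) (hg : IsUnit g)
    (hgA : g * A = A * g) : ∃ γ : ℝ → Matrix (Fin n) (Fin n) ℍ[ℝ], Continuous γ ∧ γ 0 = 1 ∧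
      γ 1 = g ∧ ∀ t ∈ unitInterval, IsUnit (γ t) ∧ γ t * A = A * γ t := by
  obtain ⟨e, hee, hcomm, hunit⟩ := exists_idem g hg
  have heA : e * A = A * e := (hcomm A hgA.symm).symm
  have heg : e * g = g * e := (hcomm g rfl).symm
  obtain ⟨J, hJJ, heJ, hJe, hJA⟩ : ∃ J : Matrix (Fin n) (Fin n) ℍ[ℝ], J * J = -e ∧ e * J = J ∧
      J * e = J ∧ J * A = A * J := by
    obtain ⟨J, h1, h2, h3, h4⟩ := exists_J (D := (ℍ[ℝ])ᵐᵒᵖ) (V := Fin n → ℍ[ℝ])
      (I := MulOpposite.op (⟨0, 1, 0, 0⟩ : ℍ[ℝ])) (A := toEnd n A) (e := toEnd n e)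
      (by
        rw [← MulOpposite.op_mul, ← MulOpposite.op_one, ← MulOpposite.op_neg]
        congr 1
        ext <;> simp)
      (hA.map (toEnd n)) (by rw [← map_mul, hee]) (by rw [← map_mul, heA, map_mul])
    refine ⟨(toEnd n).symm J, ?_, ?_, ?_, ?_⟩
    · apply (toEnd n).injective; simp [h1]
    · apply (toEnd n).injective; simp [h2]
    · apply (toEnd n).injective; simp [h3]
    · apply (toEnd n).injective; simp [h4]
  have h2e : (1 - 2 * e) * (1 - 2 * e) = 1 := by
    have h8 : (1 - 2 * e) * (1 - 2 * e) = 1 - 4 * e + 4 * (e * e) := by noncomm_ring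
    rw [h8, hee]; simp
  set h := g * (1 - 2 * e) with hh
  have hhA : h * A = A * h := by
    rw [hh, mul_assoc, sub_mul, one_mul, mul_assoc 2, heA, ← mul_assoc A, ← hgA, mul_assoc g]
    congr 1
    noncomm_ring
  let γ₁ : ℝ → Matrix (Fin n) (Fin n) ℍ[ℝ] := fun t => (1 - t) • (1 : Matrix _ _ ℍ[ℝ]) + t • h
  let γ₂ : ℝ → Matrix (Fin n) (Fin n) ℍ[ℝ] := fun t =>
    (1 - e) + (Real.cos (Real.pi * t) • e + Real.sin (Real.pi * t) • J)
  refine ⟨fun t => γ₁ t * γ₂ t, ?_, ?_, ?_, fun t ht => ⟨?_, ?_⟩⟩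
  · apply Continuous.mul
    · exact ((continuous_const.sub continuous_id).smul continuous_const).add
        (continuous_id.smul continuous_const)
    · exact continuous_const.add
        (((Real.continuous_cos.comp (continuous_const.mul continuous_id)).smul continuous_const).add
        ((Real.continuous_sin.comp (continuous_const.mul continuous_id)).smul continuous_const))
  · simp [γ₁, γ₂]
  · simp only [γ₁, γ₂, sub_self, zero_smul, one_smul, zero_add, mul_one, Real.cos_pi, Real.sin_pi,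
      neg_smul, add_zero]
    rw [show 1 - e + -e = 1 - 2 * e by rw [two_mul]; abel, hh, mul_assoc, h2e, mul_one]
  · refine IsUnit.mul ?_ ?_
    · rcases ht.1.eq_or_lt with h0 | h0
      · simp [γ₁, ← h0]
      · have e1 : γ₁ t = t • (h + algebraMap ℝ _ ((1 - t) / t)) := by
          simp only [γ₁, Algebra.algebraMap_eq_smul_one, smul_add, smul_smul]
          rw [mul_div_cancel₀ _ h0.ne', add_comm]
        rw [e1]
        exact (hunit _ (div_nonneg (by linarith [ht.2]) h0.le)).smul (Units.mk0 t h0.ne')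
    · have key : ∀ c s : ℝ, c * c + s * s = 1 →
          ((1 - e) + (c • e + s • J)) * ((1 - e) + (c • e - s • J)) = 1 := by
        intro c s hcs
        have e1 : (1 - e) * (1 - e) = 1 - e := by
          rw [mul_sub, mul_one, sub_mul, one_mul, hee, sub_self, sub_zero]
        have e2 : (1 - e) * (c • e - s • J) = 0 := by
          rw [sub_mul, one_mul, mul_sub, mul_smul_comm, mul_smul_comm, hee, heJ, sub_self]
        have e3 : (c • e + s • J) * (1 - e) = 0 := by
          rw [mul_sub, mul_one, add_mul, smul_mul_assoc, smul_mul_assoc, hee, hJe, sub_self]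
        have e4 : (c • e + s • J) * (c • e - s • J) = e := by
          rw [add_mul, mul_sub, mul_sub, smul_mul_smul_comm, smul_mul_smul_comm,
            smul_mul_smul_comm, smul_mul_smul_comm, hee, heJ, hJe, hJJ, mul_comm s c]
          have : (c * c) • e - (c * s) • J + ((c * s) • J - (s * s) • -e) =
              (c * c + s * s) • e := by rw [add_smul, smul_neg]; abel
          rw [this, hcs, one_smul]
        rw [add_mul, mul_add, mul_add, e1, e2, e3, e4]; abel
      have hcs : Real.cos (Real.pi * t) * Real.cos (Real.pi * t) +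
          Real.sin (Real.pi * t) * Real.sin (Real.pi * t) = 1 := by
        have := Real.cos_sq_add_sin_sq (Real.pi * t); nlinarith
      have k1 := key _ _ hcs
      have k2 := key (Real.cos (Real.pi * t)) (-Real.sin (Real.pi * t)) (by linarith)
      rw [neg_smul, sub_neg_eq_add, ← sub_eq_add_neg] at k2
      exact ⟨⟨_, _, k1, k2⟩, rfl⟩
  · have c1 : γ₁ t * A = A * γ₁ t := by
      simp only [γ₁, add_mul, mul_add, smul_mul_assoc, mul_smul_comm, one_mul, mul_one, hhA]
    have c2 : γ₂ t * A = A * γ₂ t := by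
      simp only [γ₂, add_mul, mul_add, sub_mul, mul_sub, smul_mul_assoc, mul_smul_comm, one_mul,
        mul_one, heA, hJA]
    change γ₁ t * γ₂ t * A = A * (γ₁ t * γ₂ t)
    rw [mul_assoc, c2, ← mul_assoc, c1, mul_assoc]

/-- conjugate roots are joined -/
theorem joined_conj {A X Y g g' : Matrix (Fin n) (Fin n) ℍ[ℝ]} {p : ℕ} (hA : IsNilpotent A)
    (hX : X ^ p = A) (hY : Y ^ p = A) (h1 : g * g' = 1) (h2 : g' * g = 1) (h3 : g * X * g' = Y) :
    JoinedIn {Z : Matrix (Fin n) (Fin n) ℍ[ℝ] | Z ^ p = A} X Y := by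
  have hg : IsUnit g := ⟨⟨g, g', h1, h2⟩, rfl⟩
  have hgA : g * A = A * g := by
    have : g * A * g' = A := by
      rw [← hX, ← conj_pow h2 _ _ h1, h3, hY]
      exact hX.symm
    calc g * A = g * A * (g' * g) := by rw [h2, mul_one]
      _ = (g * A * g') * g := by simp only [mul_assoc]
      _ = A * g := by rw [this]
  obtain ⟨γ, hγ, h0, h1', hU⟩ := exists_path hA hg hgA
  have hinv : ∀ {u u' : Matrix (Fin n) (Fin n) ℍ[ℝ]}, u * u' = 1 → u' * u = 1 →
      Ring.inverse u = u' := by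
    intro u u' a b
    exact Ring.inverse_unit ⟨u, u', a, b⟩
  refine JoinedIn.ofLine (f := fun t => γ t * X * Ring.inverse (γ t)) ?_ ?_ ?_ ?_
  · intro t ht
    have hc : ContinuousAt (fun t => Ring.inverse (γ t)) t :=
      ContinuousAt.comp (g := Ring.inverse) (continuousAt_inverse _ (hU t ht).1) hγ.continuousAt
    exact ((hγ.continuousAt.mul continuousAt_const).mul hc).continuousWithinAt
  · simp [h0]
  · change γ 1 * X * Ring.inverse (γ 1) = Y
    rw [h1', hinv h1 h2, h3]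
  · rintro _ ⟨t, ht, rfl⟩
    obtain ⟨hu, hc⟩ := hU t ht
    change (γ t * X * Ring.inverse (γ t)) ^ p = A
    rw [conj_pow (Ring.inverse_mul_cancel _ hu) _ _ (Ring.mul_inverse_cancel _ hu), hX, hc,
      mul_assoc, Ring.mul_inverse_cancel _ hu, mul_one]

theorem sum_sq_le {ι : Type*} [Fintype ι] (l : ι → ℕ) : ∑ i, l i ^ 2 ≤ (∑ i, l i) ^ 2 := by
  rw [sq (∑ i, l i), Finset.sum_mul]
  refine Finset.sum_le_sum fun i _ => ?_
  rw [sq]
  exact Nat.mul_le_mul_left _ (Finset.single_le_sum (f := l) (fun _ _ => Nat.zero_le _)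
    (Finset.mem_univ i))

/-- every root is joined to a normalised one -/
theorem reach {A : Matrix (Fin n) (Fin n) ℍ[ℝ]} {p : ℕ} (hp : 0 < p) (N : ℕ) :
    ∀ (X : Matrix (Fin n) (Fin n) ℍ[ℝ]) (ι : Type) (_ : Fintype ι) (l : ι → ℕ)
      (c : ι → (Fin n → ℍ[ℝ])), X ^ p = A → JD (toEnd n X) l c →
      finrank (ℍ[ℝ])ᵐᵒᵖ (Fin n → ℍ[ℝ]) ^ 2 - ∑ i, l i ^ 2 = N →
    ∃ (X' : Matrix (Fin n) (Fin n) ℍ[ℝ]) (l' : ι → ℕ) (c' : ι → (Fin n → ℍ[ℝ])),
      JoinedIn {Z : Matrix (Fin n) (Fin n) ℍ[ℝ] | Z ^ p = A} X X' ∧ JD (toEnd n X') l' c' ∧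
        Norm p l' := by
  induction N using Nat.strong_induction_on with
  | _ N ih =>
  intro X ι _ l c hX hJ hN
  by_cases hnorm : Norm p l
  · exact ⟨X, l, c, JoinedIn.refl hX, hJ, hnorm⟩
  · classical
    obtain ⟨i₀, i₁, hne, k, h1, h2, h3⟩ : ∃ i₀ i₁, i₀ ≠ i₁ ∧ ∃ k, p * k < l i₁ ∧ l i₁ ≤ l i₀ ∧
        l i₀ < p * k + p := by
      unfold Norm at hnorm
      push Not at hnorm
      obtain ⟨i, i', hii, k, a1, a2, a3, a4⟩ := hnorm
      rcases le_total (l i) (l i') with h | h
      · exact ⟨i', i, hii.symm, k, a1, h, a4⟩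
      · exact ⟨i, i', hii, k, a3, h, a2⟩
    obtain ⟨E, F, hFF, hpow, c', hJ'⟩ := move hJ hp hne h1 h2 h3
    set E' := (toEnd n).symm E with hE'
    set F' := (toEnd n).symm F with hF'
    have hpath : ∀ t : ℝ, ((1 + t • F') * (X + t • E') * (1 - t • F')) ^ p = A := by
      intro t
      apply (toEnd n).injective
      rw [map_pow, map_mul, map_mul, map_add, map_add, map_sub, map_one, toEnd_smul, toEnd_smul,
        hE', hF', RingEquiv.apply_symm_apply, RingEquiv.apply_symm_apply, hpow t, ← map_pow, hX]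
    set X₁ := (1 + F') * (X + E') * (1 - F') with hX₁
    have hjoin : JoinedIn {Z : Matrix (Fin n) (Fin n) ℍ[ℝ] | Z ^ p = A} X X₁ := by
      refine JoinedIn.ofLine (f := fun t : ℝ => (1 + t • F') * (X + t • E') * (1 - t • F'))
        (Continuous.continuousOn ?_) ?_ ?_ ?_
      · exact ((continuous_const.add (continuous_id.smul continuous_const)).mul
          (continuous_const.add (continuous_id.smul continuous_const))).mul
          (continuous_const.sub (continuous_id.smul continuous_const))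
      · simp
      · simp [hX₁]
      · rintro _ ⟨t, -, rfl⟩
        exact hpath t
    have hX₁p : X₁ ^ p = A := by simpa [hX₁] using hpath 1
    have hJ₁ : JD (toEnd n X₁)
        (fun i => if i = i₀ then l i₀ + 1 else if i = i₁ then l i₁ - 1 else l i) c' := by
      have : toEnd n X₁ = (1 + F) * (toEnd n X + E) * (1 - F) := by
        rw [hX₁, map_mul, map_mul, map_add, map_add, map_sub, map_one, hE', hF',
          RingEquiv.apply_symm_apply, RingEquiv.apply_symm_apply]
      rw [this]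
      exact hJ'
    have hlt : ∑ i, l i ^ 2 < ∑ i,
        (if i = i₀ then l i₀ + 1 else if i = i₁ then l i₁ - 1 else l i) ^ 2 := by
      rw [← Finset.add_sum_erase _ (fun i => l i ^ 2) (Finset.mem_univ i₀),
        ← Finset.add_sum_erase (Finset.univ.erase i₀) (fun i => l i ^ 2)
          (Finset.mem_erase.2 ⟨hne.symm, Finset.mem_univ i₁⟩),
        ← Finset.add_sum_erase _ (fun i =>
          (if i = i₀ then l i₀ + 1 else if i = i₁ then l i₁ - 1 else l i) ^ 2)
          (Finset.mem_univ i₀),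
        ← Finset.add_sum_erase (Finset.univ.erase i₀) (fun i =>
          (if i = i₀ then l i₀ + 1 else if i = i₁ then l i₁ - 1 else l i) ^ 2)
          (Finset.mem_erase.2 ⟨hne.symm, Finset.mem_univ i₁⟩)]
      have hs : ∑ i ∈ (Finset.univ.erase i₀).erase i₁,
          (if i = i₀ then l i₀ + 1 else if i = i₁ then l i₁ - 1 else l i) ^ 2 =
          ∑ i ∈ (Finset.univ.erase i₀).erase i₁, l i ^ 2 := by
        refine Finset.sum_congr rfl fun i hi => ?_
        rw [Finset.mem_erase, Finset.mem_erase] at hi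
        rw [if_neg hi.2.1, if_neg hi.1]
      rw [hs, if_pos rfl, if_neg hne.symm, if_pos rfl, ← add_assoc, ← add_assoc]
      apply Nat.add_lt_add_right
      obtain ⟨r, hr⟩ := Nat.exists_eq_add_of_lt h1
      obtain ⟨s, hs⟩ := Nat.exists_eq_add_of_le h2
      have e1 : l i₁ - 1 = p * k + r := by omega
      rw [e1, hs, hr]
      nlinarith
    have hb := sum_sq_le (fun i => if i = i₀ then l i₀ + 1 else if i = i₁ then l i₁ - 1 else l i)
    rw [hJ₁.card] at hb
    obtain ⟨X', l', c'', hj, hJD, hnm⟩ := ih _ (by omega) X₁ ι inferInstance _ c' hX₁p hJ₁ rfl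
    exact ⟨X', l', c'', hjoin.trans hj, hJD, hnm⟩

/-- **Main theorem.** -/
theorem main (n : ℕ) (A : Matrix (Fin n) (Fin n) ℍ[ℝ]) (hA : IsNilpotent A) (p : ℕ) (hp : 0 < p)
    (hne : {X : Matrix (Fin n) (Fin n) ℍ[ℝ] | X ^ p = A}.Nonempty) :
    IsPathConnected {X : Matrix (Fin n) (Fin n) ℍ[ℝ] | X ^ p = A} := by
  rw [isPathConnected_iff]
  refine ⟨hne, ?_⟩
  intro X hX Y hY
  have hnil : ∀ Z : Matrix (Fin n) (Fin n) ℍ[ℝ], Z ^ p = A → IsNilpotent (toEnd n Z) := by
    intro Z hZ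
    apply IsNilpotent.map
    obtain ⟨k, hk⟩ := hA
    exact ⟨p * k, by rw [pow_mul, hZ, hk]⟩
  obtain ⟨ι, _, l, c, hJX⟩ := exists_JD (toEnd n X) (hnil X hX)
  obtain ⟨κ, _, m, c', hJY⟩ := exists_JD (toEnd n Y) (hnil Y hY)
  obtain ⟨X', l', d, hj1, hX', hn1⟩ := reach hp _ X ι inferInstance l c hX hJX rfl
  obtain ⟨Y', m', d', hj2, hY', hn2⟩ := reach hp _ Y κ inferInstance m c' hY hJY rfl
  have hX'p : X' ^ p = A := hj1.target_mem
  have hY'p : Y' ^ p = A := hj2.target_mem
  obtain ⟨g, g', h1, h2, h3⟩ := exists_conj hX' hY' hp hn1 hn2 (by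
    rw [← map_pow, ← map_pow, hX'p, hY'p])
  have hj3 : JoinedIn {X : Matrix (Fin n) (Fin n) ℍ[ℝ] | X ^ p = A} X' Y' := by
    refine joined_conj (g := (toEnd n).symm g) (g' := (toEnd n).symm g') hA hX'p hY'p ?_ ?_ ?_
    · rw [← map_mul, h1, map_one]
    · rw [← map_mul, h2, map_one]
    · apply (toEnd n).injective
      simp [h3]
  exact (hj1.trans hj3).trans hj2.symm

end Q8.Root
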