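import Pool.Agent.Q8.Root.Move

namespace Q8.Root

open Module

section comb
variable {ι κ : Type*} [Fintype ι] [Fintype κ]

/-- At most one part lies strictly between two consecutive multiples of `p`. -/
def Norm (p : ℕ) (l : ι → ℕ) : Prop :=
  ∀ i i', i ≠ i' → ∀ k, ¬ (p * k < l i ∧ l i < p * k + p ∧ p * k < l i' ∧ l i' < p * k + p)

/-- number of parts bigger than `t` -/
def G (l : ι → ℕ) (t : ℕ) : ℕ := (Finset.univ.filter fun i => t < l i).card

theorem sum_sub (l : ι → ℕ) (t : ℕ) : ∑ i, (l i - t) = G l t + ∑ i, (l i - (t + 1)) := by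
  rw [G, Finset.card_filter, ← Finset.sum_add_distrib]
  refine Finset.sum_congr rfl fun i _ => ?_
  split_ifs <;> omega

theorem sum_sub' (l : ι → ℕ) (t p : ℕ) :
    ∑ i, (l i - t) = ∑ r ∈ Finset.range p, G l (t + r) + ∑ i, (l i - (t + p)) := by
  induction p with
  | zero => simp
  | succ p ih =>
    rw [ih, Finset.sum_range_succ, sum_sub l (t + p)]
    ring_nf

theorem G_anti (l : ι → ℕ) {s t : ℕ} (h : s ≤ t) : G l t ≤ G l s := by
  refine Finset.card_le_card fun i hi => ?_
  simp only [Finset.mem_filter, Finset.mem_univ, true_and] at hi ⊢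
  omega

theorem G_le {p : ℕ} (hp : 0 < p) {l : ι → ℕ} (hl : Norm p l) (k : ℕ) :
    G l (p * k) ≤ G l (p * k + (p - 1)) + 1 := by
  classical
  have h1 : (Finset.univ.filter fun i => p * k < l i) ⊆
      (Finset.univ.filter fun i => p * k + (p - 1) < l i) ∪
      (Finset.univ.filter fun i => p * k < l i ∧ l i < p * k + p) := by
    intro i hi
    simp only [Finset.mem_filter, Finset.mem_univ, true_and, Finset.mem_union] at hi ⊢
    omega
  have h2 : (Finset.univ.filter fun i => p * k < l i ∧ l i < p * k + p).card ≤ 1 := by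
    rw [Finset.card_le_one]
    intro a ha b hb
    simp only [Finset.mem_filter, Finset.mem_univ, true_and] at ha hb
    by_contra hne
    exact hl a b hne k ⟨ha.1, ha.2, hb.1, hb.2⟩
  calc G l (p * k) ≤ _ := Finset.card_le_card h1
    _ ≤ _ := Finset.card_union_le _ _
    _ ≤ _ := Nat.add_le_add_left h2 _

theorem seq_le {p : ℕ} (hp : 0 < p) {g h : ℕ → ℕ} (hg : ∀ r s, r ≤ s → g s ≤ g r)
    (hh : ∀ r s, r ≤ s → h s ≤ h r) (hg1 : g 0 ≤ g (p - 1) + 1) (_hh1 : h 0 ≤ h (p - 1) + 1)
    (hsum : ∑ r ∈ Finset.range p, g r = ∑ r ∈ Finset.range p, h r) :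
    h (p - 1) ≤ g (p - 1) := by
  by_contra hlt
  push Not at hlt
  have : ∑ r ∈ Finset.range p, g r < ∑ r ∈ Finset.range p, h r := by
    refine Finset.sum_lt_sum (fun r hr => ?_) ⟨p - 1, Finset.mem_range.2 (by omega), hlt⟩
    have h1 := hg 0 r (Nat.zero_le _)
    have h2 := hh r (p - 1) (by have := Finset.mem_range.1 hr; omega)
    omega
  omega

theorem seq_eq {p : ℕ} (hp : 0 < p) {g h : ℕ → ℕ} (hg : ∀ r s, r ≤ s → g s ≤ g r)
    (hh : ∀ r s, r ≤ s → h s ≤ h r) (hg1 : g 0 ≤ g (p - 1) + 1) (hh1 : h 0 ≤ h (p - 1) + 1)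
    (hsum : ∑ r ∈ Finset.range p, g r = ∑ r ∈ Finset.range p, h r) (r : ℕ) (hr : r < p) :
    h r ≤ g r := by
  have e : h (p - 1) = g (p - 1) :=
    le_antisymm (seq_le hp hg hh hg1 hh1 hsum) (seq_le hp hh hg hh1 hg1 hsum.symm)
  by_contra hlt
  push Not at hlt
  have : ∑ s ∈ Finset.range p, g s < ∑ s ∈ Finset.range p, h s := by
    refine Finset.sum_lt_sum (fun s hs => ?_) ⟨r, Finset.mem_range.2 hr, hlt⟩
    have hs' := Finset.mem_range.1 hs
    have a1 := hg s (p - 1) (by omega)
    have a2 := hh s (p - 1) (by omega)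
    have a3 := hg 0 s (by omega)
    have a4 := hg r (p - 1) (by omega)
    have a5 := hh 0 r (by omega)
    rcases le_total s r with h5 | h5
    · have := hh s r h5; omega
    · have := hg r s h5; omega
  omega

theorem G_eq {p : ℕ} (hp : 0 < p) {l : ι → ℕ} {m : κ → ℕ} (hl : Norm p l) (hm : Norm p m)
    (hsum : ∀ k, ∑ i, (l i - p * k) = ∑ j, (m j - p * k)) (t : ℕ) : G l t = G m t := by
  have hD : ∀ k, ∑ r ∈ Finset.range p, G l (p * k + r) = ∑ r ∈ Finset.range p, G m (p * k + r) := by
    intro k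
    have h1 := sum_sub' l (p * k) p
    have h2 := sum_sub' m (p * k) p
    have h3 := hsum k
    have h4 := hsum (k + 1)
    rw [show p * (k + 1) = p * k + p by ring] at h4
    omega
  have ht : t = p * (t / p) + t % p := (Nat.div_add_mod t p).symm
  have hmod := Nat.mod_lt t hp
  have gl : ∀ r s, r ≤ s → G l (p * (t / p) + s) ≤ G l (p * (t / p) + r) :=
    fun r s h => G_anti l (by omega)
  have gm : ∀ r s, r ≤ s → G m (p * (t / p) + s) ≤ G m (p * (t / p) + r) :=
    fun r s h => G_anti m (by omega)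
  rw [ht]
  apply le_antisymm
  · exact seq_eq (g := fun r => G m (p * (t / p) + r)) (h := fun r => G l (p * (t / p) + r)) hp gm gl
      (by simpa using G_le hp hm (t / p)) (by simpa using G_le hp hl (t / p)) (hD _).symm _ hmod
  · exact seq_eq (g := fun r => G l (p * (t / p) + r)) (h := fun r => G m (p * (t / p) + r)) hp gl gm
      (by simpa using G_le hp hl (t / p)) (by simpa using G_le hp hm (t / p)) (hD _) _ hmod

theorem card_fiber (l : ι → ℕ) (r : ℕ) :
    G l r = (Finset.univ.filter fun i => l i = r + 1).card + G l (r + 1) := by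
  classical
  rw [G, G, ← Finset.card_union_of_disjoint]
  · congr 1
    ext i
    simp only [Finset.mem_filter, Finset.mem_univ, true_and, Finset.mem_union]
    omega
  · rw [Finset.disjoint_filter]
    intro i _ h1 h2
    omega

theorem exists_equiv {p : ℕ} (hp : 0 < p) {l : ι → ℕ} {m : κ → ℕ} (hl : Norm p l) (hm : Norm p m)
    (hsum : ∀ k, ∑ i, (l i - p * k) = ∑ j, (m j - p * k)) :
    ∃ σ : {i // 0 < l i} ≃ {j // 0 < m j}, ∀ i, m (σ i) = l i := by
  classical
  have hc : ∀ r, Nonempty ({a : {i // 0 < l i} // l a = r} ≃ {b : {j // 0 < m j} // m b = r}) := by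
    intro r
    rw [← Fintype.card_eq]
    rcases r with _ | r
    · rw [Fintype.card_eq_zero_iff.2 ⟨fun a => by have := a.1.2; omega⟩,
        Fintype.card_eq_zero_iff.2 ⟨fun a => by have := a.1.2; omega⟩]
    · have e1 : Fintype.card {a : {i // 0 < l i} // l a = r + 1} =
          (Finset.univ.filter fun i => l i = r + 1).card := by
        rw [← Fintype.card_subtype]
        refine Fintype.card_congr ⟨fun a => ⟨a.1.1, a.2⟩, fun a => ⟨⟨a.1, by omega⟩, a.2⟩,
          fun a => rfl, fun a => rfl⟩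
      have e2 : Fintype.card {a : {i // 0 < m i} // m a = r + 1} =
          (Finset.univ.filter fun i => m i = r + 1).card := by
        rw [← Fintype.card_subtype]
        refine Fintype.card_congr ⟨fun a => ⟨a.1.1, a.2⟩, fun a => ⟨⟨a.1, by omega⟩, a.2⟩,
          fun a => rfl, fun a => rfl⟩
      have h1 := card_fiber l r
      have h2 := card_fiber m r
      have h3 := G_eq hp hl hm hsum r
      have h4 := G_eq hp hl hm hsum (r + 1)
      omega
  refine ⟨Equiv.ofFiberEquiv (f := fun a : {i // 0 < l i} => l a)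
    (g := fun b : {j // 0 < m j} => m b) (fun r => (hc r).some), fun i => ?_⟩
  exact Equiv.ofFiberEquiv_map (f := fun a : {i // 0 < l i} => l a)
    (g := fun b : {j // 0 < m j} => m b) _ i

end comb

variable {D V : Type*} [DivisionRing D] [AddCommGroup V] [Module D V] [Module.Finite D V]

theorem JD.finrank_range {X : End D V} {ι : Type*} [Fintype ι] {l : ι → ℕ} {c : ι → V}
    (h : JD X l c) (k : ℕ) : finrank D (LinearMap.range (X ^ k)) = ∑ i, (l i - k) := by
  classical
  have h1 : LinearMap.range (X ^ k) = Submodule.span D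
      (Set.range fun q : {q : Σ i, Fin (l i) // k ≤ (q.2 : ℕ)} => h.basis q) := by
    rw [← Submodule.map_top, ← h.basis.span_eq, Submodule.map_span, ← Set.range_comp]
    apply le_antisymm
    · rw [Submodule.span_le]
      rintro _ ⟨⟨i, j⟩, rfl⟩
      simp only [Function.comp, h.basis_apply]
      rw [← End.mul_apply, ← pow_add]
      by_cases hj : k + j < l i
      · refine Submodule.subset_span ⟨⟨⟨i, ⟨k + j, hj⟩⟩, Nat.le_add_right _ _⟩, ?_⟩
        rfl
      · rw [h.zero_of_le (not_lt.1 hj)]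
        exact zero_mem _
    · rw [Submodule.span_le]
      rintro _ ⟨⟨⟨i, j⟩, hj⟩, rfl⟩
      refine Submodule.subset_span ⟨⟨i, ⟨j - k, by have := j.2; omega⟩⟩, ?_⟩
      simp only [Function.comp, h.basis_apply]
      rw [← End.mul_apply, ← pow_add]
      congr 2
      simp only at hj
      omega
  rw [h1, finrank_span_eq_card]
  · rw [Fintype.card_subtype, Finset.card_filter, Fintype.sum_sigma]
    refine Finset.sum_congr rfl fun i _ => ?_
    change ∑ j : Fin (l i), (if k ≤ (j : ℕ) then 1 else 0) = _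
    rw [← Finset.sum_range (fun j => if k ≤ j then 1 else 0), ← Finset.card_filter]
    have : (Finset.range (l i)).filter (fun j => k ≤ j) = Finset.Ico k (l i) := by
      ext j; simp only [Finset.mem_filter, Finset.mem_range, Finset.mem_Ico]; omega
    rw [this, Nat.card_Ico]
  · exact h.basis.linearIndependent.comp _ Subtype.val_injective

/-- Two normalised roots of the same map are conjugate. -/
theorem exists_conj {X Y : End D V} {ι κ : Type*} [Fintype ι] [Fintype κ] {l : ι → ℕ} {m : κ → ℕ}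
    {c : ι → V} {c' : κ → V} (hX : JD X l c) (hY : JD Y m c') {p : ℕ} (hp : 0 < p)
    (hl : Norm p l) (hm : Norm p m) (hXY : X ^ p = Y ^ p) :
    ∃ g g' : End D V, g * g' = 1 ∧ g' * g = 1 ∧ g * X * g' = Y := by
  have hsum : ∀ k, ∑ i, (l i - p * k) = ∑ j, (m j - p * k) := by
    intro k
    rw [← hX.finrank_range, ← hY.finrank_range, pow_mul, pow_mul, hXY]
  obtain ⟨σ, hσ⟩ := exists_equiv hp hl hm hsum
  have hσ' : ∀ j, l (σ.symm j) = m j := fun j => by
    rw [← hσ, Equiv.apply_symm_apply]
  obtain ⟨g, hg⟩ := hX.lift (fun i j => if hi : 0 < l i then (Y ^ j) (c' (σ ⟨i, hi⟩)) else 0)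
    (by
      intro i j hj
      split_ifs with hi
      · exact hY.zero_of_le (by rw [hσ]; exact hj)
      · rfl)
  obtain ⟨g', hg'⟩ := hY.lift (fun i j => if hi : 0 < m i then (X ^ j) (c (σ.symm ⟨i, hi⟩)) else 0)
    (by
      intro i j hj
      split_ifs with hi
      · exact hX.zero_of_le (by rw [hσ']; exact hj)
      · rfl)
  have e1 : g' * g = 1 := by
    apply hX.ext
    intro i j
    rw [End.mul_apply, hg, End.one_apply]
    split_ifs with hi
    · rw [hg', dif_pos (σ ⟨i, hi⟩).2]
      simp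
    · rw [map_zero, hX.zero_of_le (by omega)]
  have e2 : g * g' = 1 := by
    apply hY.ext
    intro i j
    rw [End.mul_apply, hg', End.one_apply]
    split_ifs with hi
    · rw [hg, dif_pos (σ.symm ⟨i, hi⟩).2]
      simp
    · rw [map_zero, hY.zero_of_le (by omega)]
  have e3 : g * X = Y * g := by
    apply hX.ext
    intro i j
    have e4 : (g * X) ((X ^ j) (c i)) = g ((X ^ (j + 1)) (c i)) := by
      rw [pow_succ']; rfl
    rw [e4, End.mul_apply, hg, hg]
    split_ifs with hi
    · rw [pow_succ', End.mul_apply]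
    · rw [map_zero]
  exact ⟨g, g', e2, e1, by rw [e3, mul_assoc, e2, mul_one]⟩

end Q8.Root
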